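import Pool.Agent.W770.PC.Stms

set_option autoImplicit false

open MeasureTheory Set

namespace Pool.Agent.W382.PC.Tq

open Pool.Agent.W770.PC

theorem tq_thm : S_tq := by
  intro p q r L Δ hL hΔ
  set δ := √(((p - r) / 2) ^ 2 + q ^ 2) with hδ
  have hδ0 : 0 ≤ δ := Real.sqrt_nonneg _
  have hδ2 : δ ^ 2 = ((p - r) / 2) ^ 2 + q ^ 2 := Real.sq_sqrt (by positivity)
  have hq : |q| ≤ δ := Real.abs_le_sqrt (by nlinarith [sq_nonneg ((p - r) / 2)])
  have hd : |(p - r) / 2| ≤ δ := Real.abs_le_sqrt (by nlinarith [sq_nonneg q])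
  set e := 3 * Δ / L with he
  have he0 : 0 ≤ e := by positivity
  have hsub : {t : ℝ | L ≤ |p + 2 * t| + |q| + |r + 2 * t| ∧
      |(p + 2 * t) * (r + 2 * t) - q ^ 2| ≤ Δ} ⊆
      Icc ((δ - e - (p + r) / 2) / 2) ((δ + e - (p + r) / 2) / 2) ∪
      Icc ((-δ - e - (p + r) / 2) / 2) ((-δ + e - (p + r) / 2) / 2) := by
    rintro t ⟨h1, h2⟩
    set σ := 2 * t + (p + r) / 2 with hσ
    have e1 : p + 2 * t = σ + (p - r) / 2 := by rw [hσ]; ring
    have e2 : r + 2 * t = σ - (p - r) / 2 := by rw [hσ]; ring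
    rw [e1, e2] at h1 h2
    have e3 : (σ + (p - r) / 2) * (σ - (p - r) / 2) - q ^ 2 = |σ| ^ 2 - δ ^ 2 := by
      rw [hδ2, sq_abs]; ring
    rw [e3] at h2
    have h3 : |σ + (p - r) / 2| ≤ |σ| + δ := (abs_add_le _ _).trans (by linarith)
    have h4 : |σ - (p - r) / 2| ≤ |σ| + δ := (abs_sub _ _).trans (by linarith)
    have h5 : L / 3 ≤ |σ| + δ := by linarith [abs_nonneg σ]
    have h6 : |(|σ| - δ)| * (|σ| + δ) ≤ Δ := by
      have : |(|σ| - δ)| * (|σ| + δ) = |(|σ| ^ 2 - δ ^ 2)| := by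
        have h9 : |(|σ| + δ)| = |σ| + δ := abs_of_nonneg (add_nonneg (abs_nonneg σ) hδ0)
        calc |(|σ| - δ)| * (|σ| + δ) = |(|σ| - δ)| * |(|σ| + δ)| := by rw [h9]
          _ = |(|σ| - δ) * (|σ| + δ)| := (abs_mul _ _).symm
          _ = _ := by congr 1; ring
      rw [this]
      exact h2
    have h7 : |(|σ| - δ)| ≤ e := by
      have h8 : |(|σ| - δ)| * (L / 3) ≤ Δ :=
        (mul_le_mul_of_nonneg_left h5 (abs_nonneg _)).trans h6
      rw [he, le_div_iff₀ hL]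
      linarith
    rw [abs_le] at h7
    rcases abs_cases σ with ⟨h, _⟩ | ⟨h, _⟩
    · left
      rw [h] at h7
      constructor <;> linarith [h7.1, h7.2]
    · right
      rw [h] at h7
      constructor <;> linarith [h7.1, h7.2]
  refine (measure_mono hsub).trans ((measure_union_le _ _).trans ?_)
  rw [Real.volume_Icc, Real.volume_Icc, ← ENNReal.ofReal_add (by linarith) (by linarith)]
  apply ENNReal.ofReal_le_ofReal
  have : 12 * Δ / L = 4 * e := by rw [he]; ring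
  rw [this]
  linarith

end Pool.Agent.W382.PC.Tq
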